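import Pool.Agent.H95.ND.Targets

/-!
# MP_57ddd5_pr, module RFP: the global Fubini condition
-/

open MeasureTheory ProbabilityTheory
open scoped ENNReal

namespace Pool.Agent.H48.PD

open Pool.Agent.H99.NS Pool.Agent.H22.LPP Pool.Agent.H95.INS Pool.Agent.H76.ND Pool.Agent.H95.ND
open Pool.Agent.H97.NF (PEnv eA eB PN)

lemma lv_sep {k K : ℕ} {j : ℤ} (hk1 : 1 ≤ k) (hk : k + 2 ≤ K) (hj : |j| ≤ 24 * 64 ^ (K - 1)) :
    -lv K ≤ -lv k + j ∧ lv k + j ≤ lv K ∧ -lv K - j ≤ -lv k ∧ lv k ≤ lv K - j := by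
  have h1 : (64 : ℤ) ^ (K - 1) = 64 ^ (k - 1) * 64 ^ (K - k) := by
    rw [← pow_add]
    congr 1
    omega
  have h2 : (64 : ℤ) ^ 2 ≤ 64 ^ (K - k) := pow_le_pow_right₀ (by norm_num) (by omega)
  have h3 : (0 : ℤ) < 64 ^ (k - 1) := by positivity
  have h4 : (64 : ℤ) ^ (k - 1) * 64 ^ 2 ≤ 64 ^ (K - 1) := by
    rw [h1]
    exact mul_le_mul_of_nonneg_left h2 h3.le
  have h5 := abs_le.1 hj
  unfold lv
  refine ⟨?_, ?_, ?_, ?_⟩ <;> nlinarith [h5.1, h5.2]

theorem rr_fail {c : Cst} {K k : ℕ} {z : Site} {ω : Env} (hA : 0 ≤ c.A)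
    (hX : 16 * c.A ≤ Xf K) (hk1 : 1 ≤ k)
    (hz1 : -lv K ≤ -lv k + z.1) (hz2 : lv k + z.1 ≤ lv K)
    (h : ¬ RR (dk c (Xf K) k) (shiftE z ω) (oK K - z) (eK K - z)) :
    ∃ g, Near ω (oK K) (eK K) (14 * c.H / 1000 * 4 ^ k) g ∧ ¬ RGG (Xf K) k (-lv K) (lv K) g := by
  unfold RR at h
  push Not at h
  obtain ⟨g, ⟨hc, hT⟩, ⟨r, hr1, hr2, hr3⟩, hX2⟩ := h
  have hn : 4 * (dk c (Xf K) k).n = lv k := by
    change 4 * (8 * 64 ^ (k - 1)) = 32 * 64 ^ (k - 1)
    ring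
  rw [hn] at hr1 hr2 hX2
  have h8 : lv k + lv k = 64 ^ k := by
    unfold lv
    obtain ⟨m, rfl⟩ : ∃ m, k = m + 1 := ⟨k - 1, by omega⟩
    simp only [Nat.add_sub_cancel]
    ring
  have h9 : (64 : ℤ) ^ k ≤ 64 ^ (k + 1) := pow_le_pow_right₀ (by norm_num) (by omega)
  have hlv : 0 ≤ lv k := by unfold lv; positivity
  refine ⟨fun r => g (r - z.1) + z.2, ⟨?_, ?_⟩, ?_⟩
  · have := conn_shift z hc
    rwa [sub_add_cancel, sub_add_cancel] at this
  · rw [T_shift, sub_add_cancel, sub_add_cancel, wt_shift] at hT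
    have e1 : (oK K - z).1 + z.1 = (oK K).1 := by
      rw [Prod.fst_sub, sub_add_cancel]
    have e2 : (eK K - z).1 + z.1 = (eK K).1 := by
      rw [Prod.fst_sub, sub_add_cancel]
    rw [e1, e2] at hT
    have e3 : 14 * (dk c (Xf K) k).H * (dk c (Xf K) k).f / 1000 = 14 * c.H / 1000 * 4 ^ k := by
      change 14 * c.H * 4 ^ k / 1000 = 14 * c.H / 1000 * 4 ^ k
      ring
    rwa [e3] at hT
  · intro hR
    have hw : (0 : ℤ) < 16 ^ k := by positivity
    have hAX : 2 * (c.A * 16 ^ k) ≤ Xf K * 16 ^ k := by nlinarith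
    have hr3' : |g r| < c.A * 16 ^ k := hr3
    have hX3 : |g (-lv k)| ≤ Xf K * 16 ^ k → Xf K * 16 ^ k < |g (lv k)| := hX2
    -- the left level
    have a1 := hR k le_rfl (-lv k + z.1) (r + z.1) hz1 (by linarith) (by linarith)
      (by linarith)
    simp only [add_sub_cancel_right] at a1
    have a2 := hR k le_rfl (r + z.1) (lv k + z.1) (by linarith) (by linarith) hz2
      (by linarith)
    simp only [add_sub_cancel_right] at a2
    have a3 : g r + z.2 - (g (-lv k) + z.2) = g r - g (-lv k) := by ring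
    have a4 : g (lv k) + z.2 - (g r + z.2) = g (lv k) - g r := by ring
    rw [a3] at a1
    rw [a4] at a2
    have b1 : |g (-lv k)| ≤ |g r| + |g r - g (-lv k)| := by
      have := abs_sub_abs_le_abs_sub (g (-lv k)) (g r)
      rw [abs_sub_comm] at this
      linarith
    have b2 : |g (lv k)| ≤ |g r| + |g (lv k) - g r| := by
      have := abs_sub_abs_le_abs_sub (g (lv k)) (g r)
      linarith
    have b3 := hX3 (by linarith)
    linarith

theorem pf_RFP (h1 : T_XFA) (h2 : T_MAR) (h3 : T_DER) (h4 : T_FIM) (_h5 : T_SMF) : T_RFP := by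
  intro q δ C₀ c k₀ p₀ hq0 hq1 hPK hRG
  have hH : 0 < 14 * c.H / 1000 := by
    have := hPK.H1
    positivity
  obtain ⟨C, c', hC, hc', K₁, hK⟩ := hRG (14 * c.H / 1000) hH
  obtain ⟨K₂, hX⟩ := h1 (16 * c.A)
  have hp0 : p₀ ≠ 0 := hPK.p0.ne'
  have hp1 : p₀ ≠ ∞ := ne_top_of_le_ne_top ENNReal.one_ne_top hPK.p1
  have hpr : 0 < p₀.toReal := ENNReal.toReal_pos hp0 hp1
  have hcA : 0 ≤ c.A := by linarith [hPK.A1]
  refine ⟨C / (p₀.toReal ^ 2 / 100), c', by positivity, hc', max (max K₁ K₂) (40 * k₀), ?_⟩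
  intro K a1 k w j hK1 hKa hak hkK hj
  have hK1' : K₁ ≤ K := le_trans (le_trans (le_max_left _ _) (le_max_left _ _)) hK1
  have hK2' : K₂ ≤ K := le_trans (le_trans (le_max_right _ _) (le_max_left _ _)) hK1
  have hK3' : 40 * k₀ ≤ K := le_trans (le_max_right _ _) hK1
  have hk0 : k₀ ≤ k := by omega
  obtain ⟨hX1, hX2, hX3, ha1, -⟩ := hX K a1 hK2' hKa
  have hk1 : 1 ≤ k := le_trans ha1 hak
  have h4k : (4 : ℤ) ^ a1 ≤ 4 ^ k := pow_le_pow_right₀ (by norm_num) hak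
  have hX4 : Xf K + c.A ≤ 32 * 4 ^ k := by
    have : (0 : ℤ) < 4 ^ k := by positivity
    nlinarith
  have hOk := hPK.ok (Xf K) k hk0 hX1 hX4
  have hph := hPK.ph (Xf K) k hk0 hX1 hX4
  obtain ⟨s1, s2, s3, s4⟩ := lv_sep hk1 hkK hj
  set D := dk c (Xf K) k with hD
  set z := zc j a1 w with hz
  have hz1 : z.1 = j := rfl
  set o1 := oK K - z with ho1
  set e1 := eK K - z with he1
  have hn : 4 * D.n = lv k := by
    change 4 * (8 * 64 ^ (k - 1)) = 32 * 64 ^ (k - 1)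
    ring
  have ho11 : o1.1 = -lv K - j := rfl
  have he11 : e1.1 = lv K - j := rfl
  have hreach : Reach o1 e1 := by
    have hlv : 0 ≤ lv K := by unfold lv; positivity
    have e2 : e1.2 - o1.2 = 0 := by
      change (0 - z.2) - (0 - z.2) = 0
      ring
    constructor
    · rw [e2, abs_zero, ho11, he11]
      linarith
    · rw [e2, ho11, he11]
      exact ⟨lv K, by ring⟩
  have hdep : DepOn (dom o1 e1) (fun ω => RR D ω o1 e1) :=
    h3 D o1 e1 hreach (by rw [hn, ho11]; exact s3) (by rw [hn, he11]; exact s4)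
  have hmeas : MeasurableSet {ω | ¬ RR D ω o1 e1} :=
    h4 (dom o1 e1) (fun ω => ¬ RR D ω o1 e1) (dom_finite o1 e1)
      (fun ω ω' h => congrArg Not (hdep ω ω' h))
  set a : ℝ≥0∞ := p₀ ^ 2 / 100 with ha
  have ha0 : a ≠ 0 := by
    rw [ha]
    refine (ENNReal.div_pos (pow_ne_zero 2 hp0) (by simp)).ne'
  have haT : a ≠ ∞ := by
    rw [ha]
    refine ENNReal.div_ne_top (ENNReal.pow_ne_top hp1) (by norm_num)
  have haR : a = ENNReal.ofReal (p₀.toReal ^ 2 / 100) := by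
    rw [ha, ENNReal.ofReal_div_of_pos (by norm_num), ENNReal.ofReal_pow hpr.le,
      ENNReal.ofReal_toReal hp1]
    norm_num
  have hDq : D.q = q := hPK.hq
  -- the chain of inequalities
  have i1 : PE q {ω | ¬ RF D (shiftE z ω) o1 e1} ≤
      PE q (shiftE z ⁻¹' {out | ¬ Pin D out (fun ω => ¬ RR D ω o1 e1) ≤ a}) := by
    refine measure_mono ?_
    intro ω hω hle
    apply hω
    unfold RF
    refine le_trans hle ?_
    rw [ha]
    exact ENNReal.div_le_div_right (pow_le_pow_left₀ (zero_le) hph 2) _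
  have i2 := (mp_shiftE q z).measure_preimage_le
    {out | ¬ Pin D out (fun ω => ¬ RR D ω o1 e1) ≤ a}
  have i3 := h2 D (fun ω => ¬ RR D ω o1 e1) a hmeas ha0 haT
  rw [hDq] at i3
  have i4 : PE q {ω | ¬ RR D ω o1 e1} = PE q (shiftE z ⁻¹' {ω | ¬ RR D ω o1 e1}) :=
    ((mp_shiftE q z).measure_preimage hmeas.nullMeasurableSet).symm
  have i5 : PE q (shiftE z ⁻¹' {ω | ¬ RR D ω o1 e1}) ≤
      PE q {ω | ∃ a : ℕ, K ≤ 40 * a ∧ a ≤ K ∧
        ∃ g, Near ω (oK K) (eK K) (14 * c.H / 1000 * 4 ^ a) g ∧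
        ¬ RGG (Xf K) a (-lv K) (lv K) g} := by
    refine measure_mono ?_
    intro ω hω
    refine ⟨k, by omega, by omega, ?_⟩
    exact rr_fail hcA hX1 hk1 (by rw [hz1]; exact s1) (by rw [hz1]; exact s2) hω
  have i6 := hK K hK1'
  calc PE q {ω | ¬ RF D (shiftE z ω) o1 e1}
      ≤ PE q {ω | ¬ RR D ω o1 e1} / a := i1.trans (i2.trans i3)
    _ ≤ ENNReal.ofReal (C * Real.exp (-Real.exp (c' * K))) / a := by
        rw [i4]
        exact ENNReal.div_le_div_right (i5.trans i6) _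
    _ = ENNReal.ofReal (C / (p₀.toReal ^ 2 / 100) * Real.exp (-Real.exp (c' * K))) := by
        rw [haR, ← ENNReal.ofReal_div_of_pos (by positivity)]
        congr 1
        ring

end Pool.Agent.H48.PD
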